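import Mathlib
import Pool.Agent.Lib_helper4.LDK.Union2

set_option autoImplicit false

namespace Pool.Agent.Results.MP_859019_mp.BlockMixtures

open Pool.Agent.Lib_helper98.Renyi Pool.Agent.LDK

/-- Q1 for every real `α ∈ [2, 4]` when one of the two systems has dimension at most three or
carries a flagged mixture of pencil blocks, symmetric blocks of rank at most three and obtuse blocks
(`FlaggedBlocks`), the other system being an arbitrary finite-dimensional quantum system. -/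
theorem result {b₁ b₂ : Type} [Fintype b₁] [DecidableEq b₁] [Fintype b₂] [DecidableEq b₂]
    (σ₁ : Fin 2 → Matrix b₁ b₁ ℂ) (σ₂ : Fin 2 → Matrix b₂ b₂ ℂ)
    (h₁ : ∀ x, IsDensity (σ₁ x)) (h₂ : ∀ x, IsDensity (σ₂ x)) (α : ℝ)
    (hf : (Fintype.card b₁ ≤ 3 ∨ FlaggedBlocks σ₁) ∨ (Fintype.card b₂ ≤ 3 ∨ FlaggedBlocks σ₂)) :
    ((2 ≤ α ∧ α ≤ 3) → Fval α σ₁ σ₂ ≤ Hsum α σ₁ σ₂) ∧
      ((3 ≤ α ∧ α ≤ 4) → Hsum α σ₁ σ₂ ≤ Fval α σ₁ σ₂) := by
  have hf' : FlaggedBlocks σ₁ ∨ FlaggedBlocks σ₂ := by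
    rcases hf with (h | h) | (h | h)
    · exact Or.inl (flagged_of_card_le_three h₁ h)
    · exact Or.inl h
    · exact Or.inr (flagged_of_card_le_three h₂ h)
    · exact Or.inr h
  constructor
  · intro h
    have h1 : (1 : ℝ) ≤ α := by linarith [h.1]
    exact mixture_ge h₁ h₂ α (hf'.imp (blockMixture_of_flagged h1) (blockMixture_of_flagged h1))
      h.1 h.2
  · intro h
    have h1 : (1 : ℝ) ≤ α := by linarith [h.1]
    exact mixture_le h₁ h₂ α (hf'.imp (blockMixture_of_flagged h1) (blockMixture_of_flagged h1))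
      (Or.inr h)

end Pool.Agent.Results.MP_859019_mp.BlockMixtures
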