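import Mathlib
import Pool.Agent.Lib_helper98.RenyiInt4

set_option autoImplicit false

namespace Pool.Agent.Results.MP_859019_mp.IntegerAlpha

open Pool.Agent.Lib_helper98.Renyi

/-- Q1 at the integers `α = 3, 4, 5, 6` for arbitrary density operators `σ₁ x` on `B₁` and
`σ₂ x` on `B₂` (`x = 0, 1`): the conditional entropy of `X₁+X₂` given `B₁B₂` is at most `F_α`,
with equality for `α = 3`. -/
theorem result {b₁ b₂ : Type*} [Fintype b₁] [DecidableEq b₁] [Fintype b₂] [DecidableEq b₂]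
    (σ₁ : Fin 2 → Matrix b₁ b₁ ℂ) (σ₂ : Fin 2 → Matrix b₂ b₂ ℂ)
    (h₁ : ∀ x, IsDensity (σ₁ x)) (h₂ : ∀ x, IsDensity (σ₂ x)) (α : ℝ)
    (hα : α = 3 ∨ α = 4 ∨ α = 5 ∨ α = 6) :
    Hsum α σ₁ σ₂ ≤ Fval α σ₁ σ₂ ∧ (α = 3 → Hsum α σ₁ σ₂ = Fval α σ₁ σ₂) := by
  obtain ⟨h3, h4, h5, h6⟩ := integer_alpha σ₁ σ₂ h₁ h₂
  rcases hα with rfl | rfl | rfl | rfl
  · exact ⟨h3.le, fun _ => h3⟩
  · exact ⟨h4, fun h => by norm_num at h⟩
  · exact ⟨h5, fun h => by norm_num at h⟩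
  · exact ⟨h6, fun h => by norm_num at h⟩

end Pool.Agent.Results.MP_859019_mp.IntegerAlpha
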