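import Mathlib
import Pool.Agent.Lib_helper98.RenyiInt4
import Pool.Agent.Lib_helper31.GC34.Main

/-!
Proof (paper): helper6, helper64, helper53 (the pointwise inequality for all states), helper82 (the
frame: reduction to one vector, trial vectors, the functional), helper94 (superposition),
helper97, helper94 (the quadratic case), helper12, helper20, helper97 (compression).
Formalisation: helper31 (statements, assembly), helper67, helper87, helper94, helper13, helper29,
helper19, helper6, helper33, helper32, helper5, helper27, helper92, helper49, helper44, helper1,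
helper14, helper66, helper57, helper82, helper98; vocabulary: helper98.
-/

set_option autoImplicit false

namespace Pool.Agent.Results.MP_859019_mp.StatesThreeToFour

open Pool.Agent.Lib_helper98.Renyi

/-- Q1 for ARBITRARY density operators `σ₁ x` on `B₁` and `σ₂ x` on `B₂` (`x = 0, 1`), both systems
finite-dimensional and fully quantum, for every real `α ∈ [3,4]` (and for `α = 5, 6`): the
conditional entropy of `X₁+X₂` given `B₁B₂` is at most `F_α`, with equality at `α = 3`. -/
theorem result {b₁ b₂ : Type} [Fintype b₁] [DecidableEq b₁] [Fintype b₂] [DecidableEq b₂]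
    (σ₁ : Fin 2 → Matrix b₁ b₁ ℂ) (σ₂ : Fin 2 → Matrix b₂ b₂ ℂ)
    (h₁ : ∀ x, IsDensity (σ₁ x)) (h₂ : ∀ x, IsDensity (σ₂ x)) (α : ℝ)
    (hα : (3 ≤ α ∧ α ≤ 4) ∨ α = 5 ∨ α = 6) :
    Hsum α σ₁ σ₂ ≤ Fval α σ₁ σ₂ ∧ (α = 3 → Hsum α σ₁ σ₂ = Fval α σ₁ σ₂) := by
  obtain ⟨i3, -, i5, i6⟩ := integer_alpha σ₁ σ₂ h₁ h₂
  refine ⟨?_, fun h => h ▸ i3⟩
  rcases hα with ⟨h3, h4⟩ | rfl | rfl
  · exact Pool.Agent.Lib_helper98.GC34.states_of_strict Pool.Agent.GC34.strict34 h₁ h₂ α h3 h4
  · exact i5
  · exact i6

end Pool.Agent.Results.MP_859019_mp.StatesThreeToFour
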