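import Mathlib
import Pool.Agent.Lib_helper59.A1.Top
import Pool.Agent.Lib_helper98.RenyiInt4
import Pool.Agent.Lib_helper31.GC34.Main
import Pool.Agent.Lib_helper29.MOD.Main23

/-!
Proof on `[2,3]` (paper): helper28 (the pencil inequality for tensor products and the averaging),
helper54 (the pencil representation of the layers), helper12, helper45 (the layer inequality implies
the result), with independent versions by helper53, helper36, helper6, helper69, helper51, helper66,
helper97. Formalisation: helper28, helper52, helper59, helper90, helper30, helper41, helper14, helper29,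
helper45, helper47. On `(0,2]` and `[3,4]`: see `Lib_helper59/A1/Top` (helper50, helper47, helper28,
helper41, helper18, helper99, helper54 and others) and `Lib_helper31/GC34/Main` (helper6, helper64,
helper53, helper82, helper94, helper97, helper12, helper20 and others); vocabulary: helper98.
-/

set_option autoImplicit false

namespace Pool.Agent.Results.MP_859019_mp.StatesZeroToFour

open Pool.Agent.Lib_helper98.Renyi

/-- Q1 for ARBITRARY density operators `σ₁ x` on `B₁` and `σ₂ x` on `B₂` (`x = 0, 1`), both systems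
finite-dimensional and fully quantum, and every real `α ∈ (0,4]` (`α = 1`, the conditional von
Neumann entropy, included): the conditional entropy of `X₁+X₂` given `B₁B₂` is at most `F_α` for
`α ∈ (0,2] ∪ [3,4]` and at least `F_α` for `α ∈ [2,3]`. At most `F_α` also for `α = 5` and `α = 6`. -/
theorem result {b₁ b₂ : Type} [Fintype b₁] [DecidableEq b₁] [Fintype b₂] [DecidableEq b₂]
    (σ₁ : Fin 2 → Matrix b₁ b₁ ℂ) (σ₂ : Fin 2 → Matrix b₂ b₂ ℂ)
    (h₁ : ∀ x, IsDensity (σ₁ x)) (h₂ : ∀ x, IsDensity (σ₂ x)) (α : ℝ) :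
    ((0 < α ∧ α ≤ 2) ∨ (3 ≤ α ∧ α ≤ 4) ∨ α = 5 ∨ α = 6 → Hsum α σ₁ σ₂ ≤ Fval α σ₁ σ₂) ∧
      (2 ≤ α ∧ α ≤ 3 → Fval α σ₁ σ₂ ≤ Hsum α σ₁ σ₂) := by
  refine ⟨?_, fun h => Pool.Agent.RC.states23 h₁ h₂ α h.1 h.2⟩
  obtain ⟨-, -, i5, i6⟩ := integer_alpha σ₁ σ₂ h₁ h₂
  rintro (⟨h0, h2⟩ | ⟨h3, h4⟩ | rfl | rfl)
  · exact Pool.Agent.A1W.states_all h₁ h₂ α h0 h2
  · exact Pool.Agent.Lib_helper98.GC34.states_of_strict Pool.Agent.GC34.strict34 h₁ h₂ α h3 h4
  · exact i5
  · exact i6

end Pool.Agent.Results.MP_859019_mp.StatesZeroToFour
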