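import Mathlib
import Pool.Agent.Lib_helper59.A1.Top

/-!
Proof (paper): helper50 (positivity of the second variation and the insertion identity), helper47,
helper28, helper41, helper18 (the two-letter quadratic-form inequality), helper99, helper50, helper54
(the pairing and the reduction to it). Formalisation: helper50, helper96, helper32, helper66, helper8,
helper28, helper41, helper54, helper52, helper12, helper16, helper64, helper27, helper57, helper4,
helper18, helper59; vocabulary: helper98.
-/

set_option autoImplicit false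

namespace Pool.Agent.Results.MP_859019_mp.StatesZeroToTwo

open Pool.Agent.Lib_helper98.Renyi

/-- Q1 for ARBITRARY density operators `σ₁ x` on `B₁` and `σ₂ x` on `B₂` (`x = 0, 1`), both systems
finite-dimensional and fully quantum, and every real `α` with `0 < α ≤ 2` (`α = 1`, the conditional
von Neumann entropy, included): the conditional entropy of `X₁+X₂` given `B₁B₂` is at most `F_α`. -/
theorem result {b₁ b₂ : Type} [Fintype b₁] [DecidableEq b₁] [Fintype b₂] [DecidableEq b₂]
    (σ₁ : Fin 2 → Matrix b₁ b₁ ℂ) (σ₂ : Fin 2 → Matrix b₂ b₂ ℂ)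
    (h₁ : ∀ x, IsDensity (σ₁ x)) (h₂ : ∀ x, IsDensity (σ₂ x)) (α : ℝ)
    (h0 : 0 < α) (h2 : α ≤ 2) : Hsum α σ₁ σ₂ ≤ Fval α σ₁ σ₂ :=
  Pool.Agent.A1W.states_all h₁ h₂ α h0 h2

end Pool.Agent.Results.MP_859019_mp.StatesZeroToTwo
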