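import Pool.Agent.Lib_helper98.WAF.TOP

/-!
# Zeros on the critical line of almost all Hecke eigenforms of level one and each large weight

For all `T`, `h > 0`, `K` and `ε > 0` there is `k₀` such that for EVERY even weight `k ≥ k₀`, for all
but the proportion `ε` of the normalised Hecke eigenforms `f` of weight `k` for `SL₂(ℤ)` (there are
at least `k/24` of them), the completed `L`-function `Λ(s, f)` is entire and every interval
`(x, x + h)` contained in `[-T, T]` contains the ordinates of at least `K` zeros of odd order of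
`Λ(s, f)` on the line `Re s = 1/2`.
-/

namespace Pool.Agent.Lib_helper98.Superseded.WeightAspect

open Complex
open scoped MatrixGroups

/-- The Fourier coefficients `a(n)` of a cusp form of weight `k` for `SL₂(ℤ)`. -/
noncomputable def coeff {k : ℕ} (f : CuspForm 𝒮ℒ (k : ℤ)) (n : ℕ) : ℂ :=
  (UpperHalfPlane.qExpansion 1 f).coeff n

/-- `f` is a normalised Hecke eigenform of weight `k` for `SL₂(ℤ)`. -/
structure IsEigenform {k : ℕ} (f : CuspForm 𝒮ℒ (k : ℤ)) : Prop where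
  one : coeff f 1 = 1
  mul : ∀ m n : ℕ, m.Coprime n → coeff f (m * n) = coeff f m * coeff f n
  hecke : ∀ p r : ℕ, p.Prime → coeff f (p ^ (r + 2)) =
    coeff f p * coeff f (p ^ (r + 1)) - (p : ℂ) ^ (k - 1) * coeff f (p ^ r)

/-- `Λ` is the completed `L`-function `Λ(s, f)`: it is entire, and for `Re s > 3/2` it equals
`Γ_ℝ(s + (k-1)/2) Γ_ℝ(s + (k+1)/2) ∑ₙ a(n) n^{-(s + (k-1)/2)}`. -/
def IsLambda {k : ℕ} (f : CuspForm 𝒮ℒ (k : ℤ)) (Λ : ℂ → ℂ) : Prop :=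
  Differentiable ℂ Λ ∧ ∀ s : ℂ, 3 / 2 < s.re →
    HasSum (fun n : ℕ => Gammaℝ (s + ((k : ℂ) - 1) / 2) * Gammaℝ (s + ((k : ℂ) + 1) / 2) *
      (coeff f n / (n : ℂ) ^ (s + ((k : ℂ) - 1) / 2))) (Λ s)

/-- `Λ(s, f)` has at least `K` zeros of odd order `1/2 + it` with `t ∈ (x, x + h)`, for every
interval `(x, x + h)` in `[-T, T]`. -/
def ManyZeros (T h : ℝ) (K : ℕ) {k : ℕ} (f : CuspForm 𝒮ℒ (k : ℤ)) : Prop :=
  ∃ Λ : ℂ → ℂ, IsLambda f Λ ∧ ∀ x : ℝ, -T ≤ x → x + h ≤ T →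
    (K : ℕ∞) ≤ {t : ℝ | x < t ∧ t < x + h ∧ Odd (analyticOrderNatAt Λ (1 / 2 + t * I))}.encard

theorem result (T h : ℝ) (hh : 0 < h) (K : ℕ) (ε : ℝ) (hε : 0 < ε) :
    ∃ k₀ : ℕ, ∀ k : ℕ, k₀ ≤ k → Even k →
      {f : CuspForm 𝒮ℒ (k : ℤ) | IsEigenform f}.Finite ∧
      (k : ℝ) / 24 ≤ {f : CuspForm 𝒮ℒ (k : ℤ) | IsEigenform f}.ncard ∧
      ({f : CuspForm 𝒮ℒ (k : ℤ) | IsEigenform f ∧ ¬ ManyZeros T h K f}.ncard : ℝ) ≤
        ε * {f : CuspForm 𝒮ℒ (k : ℤ) | IsEigenform f}.ncard := by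
  obtain ⟨k₀, hk₀⟩ := Pool.Agent.WA.wa_top T hh K hε
  refine ⟨k₀, fun k hk he => ?_⟩
  obtain ⟨h1, h2, h3⟩ := hk₀ k hk he
  have e1 : {f : CuspForm 𝒮ℒ (k : ℤ) | IsEigenform f} =
      {f : CuspForm 𝒮ℒ (k : ℤ) | Pool.Agent.WA.Eig f} := by
    ext f
    exact ⟨fun hf => ⟨hf.one, hf.mul, hf.hecke⟩, fun hf => ⟨hf.one, hf.mul, hf.hecke⟩⟩
  have e2 : {f : CuspForm 𝒮ℒ (k : ℤ) | IsEigenform f ∧ ¬ ManyZeros T h K f} =
      {f : CuspForm 𝒮ℒ (k : ℤ) | Pool.Agent.WA.Eig f ∧ Pool.Agent.WA.TopBad T h K f} := by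
    have e3 : ∀ (f : CuspForm 𝒮ℒ (k : ℤ)) (Λ : ℂ → ℂ), IsLambda f Λ ↔
        Pool.Agent.GL2.IsLambda k (Pool.Agent.WA.co f) (1 : DirichletCharacter ℂ 1) Λ := by
      intro f Λ
      have h4 : ∀ s : ℂ, (fun n : ℕ => Gammaℝ (s + ((k : ℂ) - 1) / 2) *
          Gammaℝ (s + ((k : ℂ) + 1) / 2) * (Pool.Agent.WA.co f n *
            (1 : DirichletCharacter ℂ 1) (n : ZMod 1) / (n : ℂ) ^ (s + ((k : ℂ) - 1) / 2))) =
          fun n : ℕ => Gammaℝ (s + ((k : ℂ) - 1) / 2) * Gammaℝ (s + ((k : ℂ) + 1) / 2) *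
            (coeff f n / (n : ℂ) ^ (s + ((k : ℂ) - 1) / 2)) := by
        intro s
        funext n
        have h5 : (1 : DirichletCharacter ℂ 1) (n : ZMod 1) = 1 := by
          have : (n : ZMod 1) = 1 := Subsingleton.elim _ _
          rw [this, map_one]
        rw [h5, mul_one]
        rfl
      unfold IsLambda Pool.Agent.GL2.IsLambda
      simp only [h4]
    ext f
    constructor
    · rintro ⟨hf, hb⟩
      refine ⟨⟨hf.one, hf.mul, hf.hecke⟩, fun ⟨Λ, hΛ, hx⟩ => hb ⟨Λ, (e3 f Λ).2 hΛ, hx⟩⟩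
    · rintro ⟨hf, hb⟩
      refine ⟨⟨hf.one, hf.mul, hf.hecke⟩, fun ⟨Λ, hΛ, hx⟩ => hb ⟨Λ, (e3 f Λ).1 hΛ, hx⟩⟩
  rw [e1, e2]
  exact ⟨h1, h2, h3⟩

end Pool.Agent.Lib_helper98.Superseded.WeightAspect
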